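import Mathlib

/-! # Counting points of a set of bounded dimension in a grid -/

open MvPolynomial

namespace MP60829e.SB

/-- the projection which forgets the first coordinate -/
private def gt {k : Type} {m : ℕ} (x : Fin (m + 1) → k) : Fin m → k := fun i => x i.succ

private theorem gt_cons {k : Type} {m : ℕ} (x : Fin (m + 1) → k) :
    (Fin.cons (x 0) (gt x) : Fin (m + 1) → k) = x := Fin.cons_self_tail x

open Classical in
/-- the number of points of `B` in the grid `S ^ n` -/
private noncomputable def gc {k : Type} {n : ℕ} (B : Set (Fin n → k)) (S : Finset k) : ℕ :=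
  ((Fintype.piFinset fun _ : Fin n => S).filter (· ∈ B)).card

private theorem gc_empty {k : Type} {n : ℕ} {B : Set (Fin n → k)} (h : ∀ x, x ∉ B)
    (S : Finset k) : gc B S = 0 := by
  classical
  rw [gc, Finset.card_eq_zero, Finset.filter_eq_empty_iff]
  exact fun x _ => h x

/-- a nonzero polynomial without variables has no zeros -/
private theorem gc_novars {k : Type} [Field k] {n : ℕ} {P : MvPolynomial (Fin n) k} (h0 : P ≠ 0)
    (hv : P.vars ⊆ ∅) (x : Fin n → k) : eval x P ≠ 0 := by
  have h1 : P.vars = ∅ := Finset.subset_empty.1 hv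
  rw [vars_eq_empty_iff_eq_C] at h1
  rw [h1, eval_C]
  intro h2
  rw [h2, C_0] at h1
  exact h0 h1

/-- the variables of a coefficient -/
private theorem gc_vars {k : Type} [Field k] {m : ℕ} {P : MvPolynomial (Fin (m + 1)) k}
    {J : Finset (Fin m)} (h : P.vars ⊆ insert 0 (J.map (Fin.succEmb m))) (i : ℕ) :
    ((finSuccEquiv k m P).coeff i).vars ⊆ J := by
  intro j hj
  rw [mem_vars_iff_mem_support] at hj
  obtain ⟨d, hd, hjd⟩ := hj
  rw [mem_support_coeff_finSuccEquiv] at hd
  have h1 : j.succ ∈ P.vars := by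
    rw [mem_vars_iff_mem_support]
    refine ⟨_, hd, ?_⟩
    rw [Finsupp.mem_support_iff, Finsupp.cons_succ]
    exact Finsupp.mem_support_iff.1 hjd
  have h2 := h h1
  rw [Finset.mem_insert, Finset.mem_map] at h2
  rcases h2 with h2 | ⟨j', hj', h2⟩
  · exact absurd h2 (Fin.succ_ne_zero j)
  · rw [Fin.coe_succEmb, Fin.succ_inj] at h2
    rwa [← h2]

/-- polynomials without the first variable -/
private theorem gc_tail {k : Type} [Field k] {m : ℕ} {P : MvPolynomial (Fin (m + 1)) k}
    {J : Finset (Fin m)} (h0 : P ≠ 0) (h : P.vars ⊆ J.map (Fin.succEmb m)) :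
    ∃ Q : MvPolynomial (Fin m) k, Q ≠ 0 ∧ Q.vars ⊆ J ∧
      ∀ x : Fin (m + 1) → k, eval x P = eval (gt x) Q := by
  classical
  have h1 : (↑P.vars : Set (Fin (m + 1))) ⊆ Set.range (Fin.succ (n := m)) := by
    intro i hi
    have h2 := h hi
    rw [Finset.mem_map] at h2
    obtain ⟨j, _, hj⟩ := h2
    exact ⟨j, hj⟩
  obtain ⟨Q, hQ⟩ := exists_rename_eq_of_vars_subset_range P _ (Fin.succ_injective m) h1
  refine ⟨Q, ?_, ?_, fun x => ?_⟩
  · rintro rfl
    rw [map_zero] at hQ
    exact h0 hQ.symm
  · intro j hj
    have h3 : j.succ ∈ P.vars := by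
      rw [mem_vars_iff_degreeOf_ne_zero] at hj ⊢
      rw [← hQ, degreeOf_rename_of_injective (Fin.succ_injective m)]
      exact hj
    have h4 := h h3
    rw [Finset.mem_map] at h4
    obtain ⟨j', hj', h4⟩ := h4
    rw [Fin.coe_succEmb, Fin.succ_inj] at h4
    rwa [← h4]
  · rw [← hQ, eval_rename]
    rfl

private theorem gc_main {k : Type} [Field k] (n : ℕ) : ∀ (e : ℕ) (B : Set (Fin n → k)),
    (∀ J : Finset (Fin n), e ≤ J.card → ∃ P : MvPolynomial (Fin n) k, P ≠ 0 ∧
      P.vars ⊆ J ∧ ∀ x ∈ B, eval x P = 0) →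
    ∃ K : ℕ, ∀ S : Finset k, S.Nonempty → gc B S * S.card ≤ K * S.card ^ e := by
  classical
  have hzero : ∀ (n : ℕ) (B : Set (Fin n → k)), (∀ J : Finset (Fin n), 0 ≤ J.card →
      ∃ P : MvPolynomial (Fin n) k, P ≠ 0 ∧ P.vars ⊆ J ∧ ∀ x ∈ B, eval x P = 0) →
      ∀ x, x ∉ B := by
    intro n B h x hx
    obtain ⟨P, h0, hv, hP⟩ := h ∅ (Nat.zero_le _)
    exact gc_novars h0 hv x (hP x hx)
  induction n with
  | zero =>
    intro e B h
    rcases Nat.eq_zero_or_pos e with rfl | he
    · exact ⟨0, fun S _ => by rw [gc_empty (hzero 0 B h), zero_mul, zero_mul]⟩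
    · refine ⟨1, fun S hS => ?_⟩
      have h1 : gc B S ≤ 1 := by
        refine (Finset.card_filter_le _ _).trans ?_
        rw [Fintype.card_piFinset]
        simp
      calc gc B S * S.card ≤ 1 * S.card := Nat.mul_le_mul_right _ h1
        _ ≤ 1 * S.card ^ e := Nat.mul_le_mul_left _ (Nat.le_self_pow he.ne' _)
  | succ m ih =>
    intro e B h
    rcases e with _ | e
    · exact ⟨0, fun S _ => by rw [gc_empty (hzero (m + 1) B h), zero_mul, zero_mul]⟩
    -- the polynomials with the first variable
    have hJ : ∀ J : Finset (Fin m), ∃ P : MvPolynomial (Fin (m + 1)) k, e ≤ J.card →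
        P ≠ 0 ∧ P.vars ⊆ insert 0 (J.map (Fin.succEmb m)) ∧ ∀ x ∈ B, eval x P = 0 := by
      intro J
      by_cases hJ : e ≤ J.card
      · have h1 : e + 1 ≤ (insert 0 (J.map (Fin.succEmb m))).card := by
          rw [Finset.card_insert_of_notMem, Finset.card_map]
          · omega
          · rw [Finset.mem_map]
            rintro ⟨j, _, hj⟩
            exact Fin.succ_ne_zero j hj
        obtain ⟨P, hP⟩ := h _ h1
        exact ⟨P, fun _ => hP⟩
      · exact ⟨0, fun h => absurd h hJ⟩
    choose P hP using hJ
    let lc : Finset (Fin m) → MvPolynomial (Fin m) k := fun J =>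
      (finSuccEquiv k m (P J)).leadingCoeff
    let D : ℕ := Finset.univ.sup fun J : Finset (Fin m) => (finSuccEquiv k m (P J)).natDegree
    -- the two projections
    obtain ⟨B₁, hB₁⟩ : ∃ B₁ : Set (Fin m → k), B₁ = gt '' B := ⟨_, rfl⟩
    obtain ⟨B₂, hB₂⟩ : ∃ B₂ : Set (Fin m → k), ∀ y, y ∈ B₂ ↔
      ∀ J : Finset (Fin m), e ≤ J.card → eval y (lc J) = 0 :=
      ⟨{y | ∀ J : Finset (Fin m), e ≤ J.card → eval y (lc J) = 0}, fun _ => Iff.rfl⟩
    obtain ⟨K₁, hK₁⟩ := ih (e + 1) B₁ (by
      intro J hJ
      obtain ⟨Q, h0, hv, hQ⟩ := h (J.map (Fin.succEmb m)) (by rwa [Finset.card_map])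
      obtain ⟨Q', h1, h2, h3⟩ := gc_tail h0 hv
      refine ⟨Q', h1, h2, fun y hy => ?_⟩
      rw [hB₁] at hy
      obtain ⟨x, hx, rfl⟩ := hy
      rw [← h3, hQ x hx])
    obtain ⟨K₂, hK₂⟩ := ih e B₂ (by
      intro J hJ
      obtain ⟨h0, hv, _⟩ := hP J hJ
      refine ⟨lc J, ?_, gc_vars hv _, fun y hy => (hB₂ y).1 hy J hJ⟩
      rw [Ne, Polynomial.leadingCoeff_eq_zero, EmbeddingLike.map_eq_zero_iff]
      exact h0)
    refine ⟨D * K₁ + K₂, fun S hS => ?_⟩
    -- the points over `B₂`
    set T : Finset (Fin (m + 1) → k) := (Fintype.piFinset fun _ => S).filter (· ∈ B) with hT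
    have hTS : ∀ x ∈ T, ∀ i, x i ∈ S := fun x hx i =>
      Fintype.mem_piFinset.1 (Finset.mem_filter.1 hx).1 i
    have hTB : ∀ x ∈ T, x ∈ B := fun x hx => (Finset.mem_filter.1 hx).2
    have hA : (T.filter fun x => gt x ∈ B₂).card ≤ S.card * gc B₂ S := by
      rw [gc, ← Finset.card_product]
      refine Finset.card_le_card_of_injOn (fun x => (x 0, gt x)) ?_ ?_
      · intro x hx
        rw [Finset.mem_coe, Finset.mem_filter] at hx
        rw [Finset.mem_coe, Finset.mem_product, Finset.mem_filter, Fintype.mem_piFinset]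
        exact ⟨hTS x hx.1 0, fun i => hTS x hx.1 i.succ, hx.2⟩
      · intro x _ y _ hxy
        have h1 : x 0 = y 0 := congrArg Prod.fst hxy
        have h2 : gt x = gt y := congrArg Prod.snd hxy
        rw [← gt_cons x, ← gt_cons y, h1, h2]
    -- the other points
    have hC : (T.filter fun x => gt x ∉ B₂).card ≤ D * gc B₁ S := by
      rw [gc]
      refine Finset.card_le_mul_card_image_of_maps_to (f := gt) ?_ D ?_
      · intro x hx
        rw [Finset.mem_filter] at hx
        rw [Finset.mem_filter, Fintype.mem_piFinset]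
        rw [hB₁]
        exact ⟨fun i => hTS x hx.1 i.succ, x, hTB x hx.1, rfl⟩
      · intro y _
        by_cases hy : y ∈ B₂
        · have h1 : ((T.filter fun x => gt x ∉ B₂).filter fun x => gt x = y) = ∅ := by
            rw [Finset.filter_eq_empty_iff]
            intro x hx hxy
            rw [Finset.mem_filter, hxy] at hx
            exact hx.2 hy
          rw [h1, Finset.card_empty]
          exact Nat.zero_le _
        · have hy' : ∃ J : Finset (Fin m), e ≤ J.card ∧ eval y (lc J) ≠ 0 := by
            by_contra hcon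
            push Not at hcon
            exact hy ((hB₂ y).2 hcon)
          obtain ⟨J, hJ, hJy⟩ := hy'
          set p : Polynomial k := (finSuccEquiv k m (P J)).map (eval y) with hp
          have hp0 : p ≠ 0 := by
            intro h1
            have h2 := congrArg (fun r => Polynomial.coeff r (finSuccEquiv k m (P J)).natDegree) h1
            simp only [hp, Polynomial.coeff_map, Polynomial.coeff_zero] at h2
            exact hJy h2
          calc _ ≤ p.roots.toFinset.card := by
                refine Finset.card_le_card_of_injOn (fun x => x 0) ?_ ?_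
                · intro x hx
                  rw [Finset.mem_coe, Finset.mem_filter, Finset.mem_filter] at hx
                  rw [Finset.mem_coe, Multiset.mem_toFinset, Polynomial.mem_roots hp0,
                    Polynomial.IsRoot.def, hp, ← eval_eq_eval_mv_eval', ← hx.2,
                    gt_cons]
                  exact (hP J hJ).2.2 x (hTB x hx.1.1)
                · intro x hx x' hx' hxx
                  rw [Finset.mem_coe, Finset.mem_filter] at hx hx'
                  have h1 : x 0 = x' 0 := hxx
                  rw [← gt_cons x, ← gt_cons x', h1, hx.2, hx'.2]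
            _ ≤ p.natDegree := (Multiset.toFinset_card_le _).trans (Polynomial.card_roots' _)
            _ ≤ (finSuccEquiv k m (P J)).natDegree := Polynomial.natDegree_map_le
            _ ≤ D := Finset.le_sup (f := fun J : Finset (Fin m) =>
                (finSuccEquiv k m (P J)).natDegree) (Finset.mem_univ J)
    have hsum : gc B S ≤ D * gc B₁ S + S.card * gc B₂ S := by
      have h1 : gc B S = (T.filter fun x => gt x ∈ B₂).card +
          (T.filter fun x => gt x ∉ B₂).card := by
        rw [Finset.card_filter_add_card_filter_not]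
        rfl
      rw [h1, add_comm]
      exact Nat.add_le_add hC hA
    calc gc B S * S.card ≤ (D * gc B₁ S + S.card * gc B₂ S) * S.card :=
          Nat.mul_le_mul_right _ hsum
      _ = D * (gc B₁ S * S.card) + S.card * (gc B₂ S * S.card) := by ring
      _ ≤ D * (K₁ * S.card ^ (e + 1)) + S.card * (K₂ * S.card ^ e) :=
          Nat.add_le_add (Nat.mul_le_mul_left _ (hK₁ S hS)) (Nat.mul_le_mul_left _ (hK₂ S hS))
      _ = _ := by ring

/-- PROOF. Order `σ = Fin n`. For every `J` of cardinality `d + 1` take `P J`; it is a polynomial in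
the variables `J`. Write it as a polynomial in the largest variable, its coefficients as polynomials
in the next one, and so on: this gives a finite list of polynomials such that at every point `x` of
`B` there are `j ∈ J` and a polynomial of the list in the variables `i ≤ j`, `i ∈ J`, which is not zero
as a polynomial in `x j` when the others are substituted, and vanishes at `x`: `x j` takes at most `D`
values if the `x i`, `i ∈ J`, `i < j`, are given. For `x ∈ B` let `I` be the set of the `i` which are not
determined in this way by the elements of `I` before `i`: it has at most `d` elements, and `x` is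
determined up to `D ^ n` choices by its coordinates in `I`. -/
theorem grid_count {k : Type} [Field k] {n : ℕ} (d : ℕ) (B : Set (Fin n → k))
    (h : ∀ J : Finset (Fin n), d < J.card → ∃ P : MvPolynomial (Fin n) k, P ≠ 0 ∧
      P.vars ⊆ J ∧ ∀ x ∈ B, eval x P = 0) :
    ∃ K : ℕ, ∀ S : Finset k, S.Nonempty →
      {x : Fin n → k | x ∈ B ∧ ∀ i, x i ∈ S}.ncard ≤ K * S.card ^ d := by
  classical
  obtain ⟨K, hK⟩ := gc_main n (d + 1) B h
  refine ⟨K, fun S hS => ?_⟩
  have h1 : {x : Fin n → k | x ∈ B ∧ ∀ i, x i ∈ S} =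
      ↑((Fintype.piFinset fun _ : Fin n => S).filter (· ∈ B)) := by
    ext x
    rw [Set.mem_ofPred_eq, Finset.mem_coe, Finset.mem_filter, Fintype.mem_piFinset, and_comm]
  rw [h1, Set.ncard_coe_finset]
  refine Nat.le_of_mul_le_mul_right ?_ (Finset.card_pos.2 hS)
  calc _ ≤ K * S.card ^ (d + 1) := hK S hS
    _ = _ := by ring

end MP60829e.SB
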