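import Pool.Agent.Lib.MP_60829e_nt.SB.Defs

/-! # Linear independence in the ultrapower -/

open Module

namespace MP60829e.SB

open MP60829e.ST (Qa Lsp Lt)
open MP60829e.PS

/-- An ultrafilter picks one of finitely many alternatives. -/
theorem pick {I A : Type} [Finite A] (U : Ultrafilter I) (f : I → A) :
    ∃ c : A, ∀ᶠ a in (U : Filter I), f a = c := by
  classical
  have h1 : (⋃ c ∈ (Set.univ : Set A), f ⁻¹' {c}) ∈ U := by
    have : (⋃ c ∈ (Set.univ : Set A), f ⁻¹' {c}) = Set.univ := by
      ext a
      simp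
    rw [this]
    exact Filter.univ_mem
  rw [Ultrafilter.finite_biUnion_mem_iff Set.finite_univ] at h1
  obtain ⟨c, -, hc⟩ := h1
  exact ⟨c, hc⟩

/-- PROOF. Otherwise almost all `v a` are dependent, with coefficients `c a s`, not all zero;
`pick` gives `s0` with `c a s0 ≠ 0` almost always. The classes of the `c · s` give a relation of the
classes, so the class of `c · s0` is zero, contradiction (`UP.mk_eq_zero`). -/
theorem eventually_li {I σ : Type} [Fintype σ] {N : ℕ} (U : Ultrafilter I)
    (v : I → Fin N → σ → Qa)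
    (h : LinearIndependent (UP U Qa) fun s : Fin N => cls U fun a => v a s) :
    ∀ᶠ a in (U : Filter I), LinearIndependent Qa (v a) := by
  classical
  by_contra hcon
  rw [← Ultrafilter.eventually_not] at hcon
  have h1 : ∀ a, ¬ LinearIndependent Qa (v a) →
      ∃ g : Fin N → Qa, ∑ s, g s • v a s = 0 ∧ ∃ s, g s ≠ 0 := by
    intro a ha
    exact Fintype.not_linearIndependent_iff.mp ha
  let c : I → Fin N → Qa := fun a =>
    if ha : ¬ LinearIndependent Qa (v a) then (h1 a ha).choose else 0
  have hc : ∀ a, ¬ LinearIndependent Qa (v a) →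
      (∑ s, c a s • v a s = 0 ∧ ∃ s, c a s ≠ 0) := by
    intro a ha
    have : c a = (h1 a ha).choose := dif_pos ha
    rw [this]
    exact (h1 a ha).choose_spec
  -- the index
  let f : I → Option (Fin N) := fun a => if ha : ∃ s, c a s ≠ 0 then some ha.choose else none
  obtain ⟨o, ho⟩ := pick U f
  have hfa : ∀ a, ¬ LinearIndependent Qa (v a) → ∃ s, f a = some s ∧ c a s ≠ 0 := by
    intro a ha
    have hx := (hc a ha).2
    exact ⟨hx.choose, dif_pos hx, hx.choose_spec⟩
  -- the relation
  rw [Fintype.linearIndependent_iff] at h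
  have hrel : ∑ s, UP.mk U (fun a => c a s) • (cls U fun a => v a s) = 0 := by
    funext t
    rw [Finset.sum_apply, Pi.zero_apply]
    have e1 : ∀ s, (UP.mk U (fun a => c a s) • (cls U fun a => v a s)) t =
        UP.mk U ((fun a => c a s) * (fun a => v a s t)) := by
      intro s
      rw [Pi.smul_apply, smul_eq_mul, map_mul]
      rfl
    rw [Finset.sum_congr rfl (fun s _ => e1 s), ← map_sum, UP.mk_eq_zero]
    filter_upwards [hcon] with a ha
    have h2 := congrFun (hc a ha).1 t
    rw [Finset.sum_apply, Pi.zero_apply] at h2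
    rw [Finset.sum_apply]
    exact h2
  have hz := h _ hrel
  obtain ⟨a, ha1, ha2⟩ := (hcon.and ho).exists
  obtain ⟨s0, hs0, -⟩ := hfa a ha1
  have ho' : o = some s0 := ha2.symm.trans hs0
  have h3 := hz s0
  rw [UP.mk_eq_zero] at h3
  obtain ⟨b, ⟨hb1, hb2⟩, hb3⟩ := ((hcon.and ho).and h3).exists
  obtain ⟨s1, hs1, hs1'⟩ := hfa b hb1
  have : some s1 = some s0 := by
    rw [← hs1, hb2, ho']
  have e := Option.some.inj this
  subst e
  exact hs1' hb3

end MP60829e.SB
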