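import Pool.Agent.Lib.MP_60829e_nt.SB.Defs
import Pool.Agent.Lib.MP_60829e_nt.FC.Gen
import Pool.Agent.Lib.MP_60829e_nt.FC.Poly

/-! # The tangent relation -/

open MvPolynomial Module

namespace MP60829e.SB

open MP60829e.ST (Qa Lsp Lt)
open MP60829e.PS

/-- `G (z, M lam)` as a polynomial in `z` and `M`. -/
noncomputable def sub {ζ ι : Type} {r : ℕ} (lam : Fin r → ℂ) (G : MvPolynomial (ζ ⊕ ι) ℂ) :
    MvPolynomial (ζ ⊕ (ι × Fin r)) ℂ :=
  aeval (Sum.elim (fun t => X (Sum.inl t)) fun i => ∑ j, C (lam j) * X (Sum.inr (i, j))) G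

private theorem ev_lin {ζ ι : Type} {r : ℕ} (lam : Fin r → ℂ) (i : ι)
    (z : ζ → Qa) (M : ι × Fin r → Qa) :
    TV.ev (Sum.elim z M) (∑ j, C (lam j) * X (Sum.inr (i, j)) :
      MvPolynomial (ζ ⊕ (ι × Fin r)) ℂ) = pt lam M i := by
  rw [map_sum]
  unfold pt
  refine Finset.sum_congr rfl fun j _ => ?_
  rw [TV.ev_mul, TV.ev_C, TV.ev_X, Sum.elim_inr, Algebra.smul_def, mul_comm]

theorem ev_sub {ζ ι : Type} {r : ℕ} (lam : Fin r → ℂ) (G : MvPolynomial (ζ ⊕ ι) ℂ)
    (z : ζ → Qa) (M : ι × Fin r → Qa) :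
    TV.ev (Sum.elim z M) (sub lam G) = eval (pv z (pt lam M)) G := by
  induction G using MvPolynomial.induction_on with
  | C a =>
    unfold sub
    rw [algHom_C, algebraMap_eq, TV.ev_C, eval_C]
  | add p q hp hq =>
    have h1 : sub lam (p + q) = sub lam p + sub lam q := map_add _ _ _
    rw [h1, map_add, hp, hq, map_add]
  | mul_X p i hp =>
    have h1 : sub lam (p * X i) = sub lam p * sub lam (X i) := map_mul _ _ _
    rw [h1, TV.ev_mul, hp, map_mul, eval_X]
    congr 1
    rcases i with t | i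
    · have h2 : sub lam (X (Sum.inl t) : MvPolynomial (ζ ⊕ ι) ℂ) = X (Sum.inl t) := aeval_X _ _
      rw [h2, TV.ev_X]
      rfl
    · have h2 : sub lam (X (Sum.inr i) : MvPolynomial (ζ ⊕ ι) ℂ) =
          ∑ j, C (lam j) * X (Sum.inr (i, j)) := aeval_X _ _
      rw [h2, ev_lin]
      rfl

/-- PROOF. Chain rule as in `TV.dv_sub` (`TV.dv_add`, `TV.dv_mul`, `TV.dv_sum`, `TV.dv_X`, `TV.dv_C`). -/
theorem dv_sub {ζ ι : Type} [Fintype ζ] [Fintype ι] {r : ℕ} (lam : Fin r → ℂ)
    (G : MvPolynomial (ζ ⊕ ι) ℂ) (z y : ζ → Qa) (M T : ι × Fin r → Qa) :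
    TV.dv (Sum.elim z M) (Sum.elim y T) (sub lam G) =
      ∑ t, eval (pv z (pt lam M)) (pderiv (Sum.inl t) G) * (y t : ℂ) +
        ∑ i, eval (pv z (pt lam M)) (pderiv (Sum.inr i) G) * pt lam T i := by
  classical
  have key : TV.dv (Sum.elim z M) (Sum.elim y T) (sub lam G) =
      ∑ s, eval (pv z (pt lam M)) (pderiv s G) * pv y (pt lam T) s := by
    induction G using MvPolynomial.induction_on with
    | C a =>
      have h1 : sub lam (C a : MvPolynomial (ζ ⊕ ι) ℂ) = C a := algHom_C _ a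
      rw [h1, TV.dv_C]
      symm
      refine Finset.sum_eq_zero fun i _ => ?_
      rw [pderiv_C, map_zero, zero_mul]
    | add p q hp hq =>
      have h1 : sub lam (p + q) = sub lam p + sub lam q := map_add _ _ _
      rw [h1, TV.dv_add, hp, hq, ← Finset.sum_add_distrib]
      refine Finset.sum_congr rfl fun i _ => ?_
      rw [map_add, map_add, add_mul]
    | mul_X p i hp =>
      have h1 : sub lam (p * X i) = sub lam p * sub lam (X i) := map_mul _ _ _
      have h3 : TV.dv (Sum.elim z M) (Sum.elim y T)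
          (sub lam (X i : MvPolynomial (ζ ⊕ ι) ℂ)) = pv y (pt lam T) i := by
        rcases i with t | i
        · have h2 : sub lam (X (Sum.inl t) : MvPolynomial (ζ ⊕ ι) ℂ) = X (Sum.inl t) :=
            aeval_X _ _
          rw [h2, TV.dv_X]
          rfl
        · have h2 : sub lam (X (Sum.inr i) : MvPolynomial (ζ ⊕ ι) ℂ) =
              ∑ j, C (lam j) * X (Sum.inr (i, j)) := aeval_X _ _
          rw [h2, TV.dv_sum]
          have h5 : pv y (pt lam T) (Sum.inr i) = ∑ j, T (i, j) • lam j := rfl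
          rw [h5]
          refine Finset.sum_congr rfl fun j _ => ?_
          rw [TV.dv_mul, TV.dv_C, zero_mul, zero_add, TV.ev_C, TV.dv_X, Sum.elim_inr,
            Algebra.smul_def, mul_comm]
      rw [h1, TV.dv_mul, hp, h3, ev_sub, ev_sub, eval_X]
      have h4 : ∀ i', eval (pv z (pt lam M)) (pderiv i' (p * X i)) * pv y (pt lam T) i' =
          eval (pv z (pt lam M)) (pderiv i' p) * pv y (pt lam T) i' * pv z (pt lam M) i +
            (if i' = i then eval (pv z (pt lam M)) p * pv y (pt lam T) i else 0) := by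
        intro i'
        rw [pderiv_mul, map_add, map_mul, map_mul, eval_X]
        split_ifs with h
        · subst h
          rw [pderiv_X_self, map_one]
          ring
        · rw [pderiv_X_of_ne (Ne.symm h), map_zero]
          ring
      rw [Finset.sum_congr rfl fun i' _ => h4 i', Finset.sum_add_distrib, Finset.sum_ite_eq',
        if_pos (Finset.mem_univ i), Finset.sum_mul]
  rw [key, Fintype.sum_sum_type]
  rfl

/-- PROOF. `FC.forms` for `L = ⊥` and `sub lam G`: polynomials `P j` over `Qa`. Their values at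
`(z a, M a)` are zero almost always, so `aeval (Sum.elim (cls U z) (cls U M)) (P j) = 0`
(`FC.up_aeval`). Apply `D` (`FC.derivation_aeval`): the sum of `D (cls ..) * aeval (pderiv .. (P j))` is
zero, so almost always `∑ s, v s * eval (z a, M a) (pderiv s (P j)) = 0` for
`v = Sum.elim 0 (T a)`, for all `j` (`eventually_all`); hence `TV.dv .. ∈ ⊥`, and `dv_sub`. -/
theorem tangent {I ζ ι : Type} [Fintype ζ] [Fintype ι] {r : ℕ} (U : Ultrafilter I)
    (lam : Fin r → ℂ) (G : MvPolynomial (ζ ⊕ ι) ℂ) (z : I → ζ → Qa) (M : I → ι × Fin r → Qa)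
    (h : ∀ᶠ a in (U : Filter I), eval (pv (z a) (pt lam (M a))) G = 0)
    (D : Derivation Qa (UP U Qa) (UP U Qa)) (hD : ∀ t, D (cls U z t) = 0)
    (T : I → ι × Fin r → Qa) (hT : ∀ p, cls U T p = D (cls U M p)) :
    ∀ᶠ a in (U : Filter I), ∑ i, eval (pv (z a) (pt lam (M a))) (pderiv (Sum.inr i) G) *
      pt lam (T a) i = 0 := by
  classical
  obtain ⟨q, P, hP1, hP2⟩ := FC.forms (⊥ : Submodule Qa ℂ) (sub lam G)
  obtain ⟨c, hc⟩ : ∃ c : I → (ζ ⊕ (ι × Fin r)) → Qa, c = fun a => Sum.elim (z a) (M a) :=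
    ⟨_, rfl⟩
  have h1 : ∀ᶠ a in (U : Filter I), ∀ j, eval (c a) (P j) = 0 := by
    refine h.mono fun a ha j => hP1 _ ?_ j
    rw [Submodule.mem_bot, hc]
    exact (ev_sub lam G (z a) (M a)).trans ha
  have h2 : ∀ j, ∀ᶠ a in (U : Filter I),
      ∑ p, T a p * eval (c a) (pderiv (Sum.inr p) (P j)) = 0 := by
    intro j
    have hz0 : aeval (fun s => UP.mk U fun a => c a s) (P j) = 0 := by
      rw [FC.up_aeval U c (P j)]
      exact UP.mk_eq_zero.2 (h1.mono fun a ha => ha j)
    have h3 := FC.derivation_aeval D (fun s => UP.mk U fun a => c a s) (P j)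
    rw [hz0, map_zero, Fintype.sum_sum_type] at h3
    have h4 : ∀ t : ζ, D (UP.mk U fun a => c a (Sum.inl t)) = 0 := by
      intro t
      rw [hc]
      exact hD t
    have h5 : ∀ p : ι × Fin r, D (UP.mk U fun a => c a (Sum.inr p)) = UP.mk U fun a => T a p := by
      intro p
      rw [hc]
      exact (hT p).symm
    have h6 : ∀ Q : MvPolynomial (ζ ⊕ (ι × Fin r)) Qa,
        aeval (fun s => UP.mk U fun a => c a s) Q = UP.mk U fun a => eval (c a) Q :=
      fun Q => FC.up_aeval U c Q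
    simp only [h4, h5, h6, zero_mul, Finset.sum_const_zero, zero_add] at h3
    refine UP.mk_eq_zero.1 ?_
    rw [h3]
    have h7 : (fun a => ∑ p, T a p * eval (c a) (pderiv (Sum.inr p) (P j))) =
        ∑ p, (fun a => T a p) * (fun a => eval (c a) (pderiv (Sum.inr p) (P j))) := by
      funext a
      simp only [Finset.sum_apply, Pi.mul_apply]
    rw [h7, map_sum]
    simp only [map_mul]
  have h3 : ∀ᶠ a in (U : Filter I), ∀ j,
      ∑ p, T a p * eval (c a) (pderiv (Sum.inr p) (P j)) = 0 := Filter.eventually_all.2 h2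
  refine h3.mono fun a ha => ?_
  have h4 : TV.dv (c a) (Sum.elim (0 : ζ → Qa) (T a)) (sub lam G) ∈ (⊥ : Submodule Qa ℂ) := by
    refine hP2 _ _ fun j => ?_
    rw [Fintype.sum_sum_type]
    simp only [Sum.elim_inl, Pi.zero_apply, zero_mul, Finset.sum_const_zero, zero_add,
      Sum.elim_inr]
    exact ha j
  rw [Submodule.mem_bot, hc, dv_sub] at h4
  have h5 : ∑ t : ζ, eval (pv (z a) (pt lam (M a))) (pderiv (Sum.inl t) G) *
      (((0 : ζ → Qa) t : Qa) : ℂ) = 0 := by
    refine Finset.sum_eq_zero fun t _ => ?_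
    rw [Pi.zero_apply]
    exact mul_eq_zero_of_right _ (map_zero (algebraMap Qa ℂ))
  rw [h5, zero_add] at h4
  exact h4

end MP60829e.SB
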