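import Pool.Agent.Lib.MP_60829e_nt.SB.Defs
import Pool.Agent.Lib.MP_60829e_nt.HP.Main

/-! # The hyperplane theorem in coordinates -/

open Module

namespace MP60829e.SB

open MP60829e.ST (Qa Lsp Lt)

/-- PROOF. `Q ≃ Fin (card Q)`; `V` = the span of the vectors `pt lam (β s)` (transported), of dimension
`N` since `lam` is independent; all its coordinates are in `Lsp`; `HP.hp`. -/
theorem hyp_count {Q : Type} [Fintype Q] {r N : ℕ} (lam : Fin r → ℂ)
    (hlam : LinearIndependent Qa lam) (hlog : ∀ j, lam j ∈ Lsp) (g : Q → ℂ)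
    (hg : LinearIndependent Qa g) (β : Fin N → Q × Fin r → Qa) (hβ : LinearIndependent Qa β)
    (h : ∀ s, ∑ i, g i * pt lam (β s) i = 0) : N ≤ Fintype.card Q * (Fintype.card Q + 1) := by
  classical
  let e := Fintype.equivFin Q
  let v : Fin N → (Fin (Fintype.card Q) → ℂ) := fun s t => pt lam (β s) (e.symm t)
  have hv : LinearIndependent Qa v := by
    rw [Fintype.linearIndependent_iff]
    intro c hc
    rw [Fintype.linearIndependent_iff] at hβ
    refine hβ c ?_
    funext x
    obtain ⟨i, j⟩ := x
    have h1 := congrFun hc (e i)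
    simp only [Finset.sum_apply, Pi.smul_apply, Pi.zero_apply, v, Equiv.symm_apply_apply] at h1
    rw [Fintype.linearIndependent_iff] at hlam
    have h2 : ∑ j, (∑ s, c s * β s (i, j)) • lam j = 0 := by
      rw [← h1]
      simp only [pt, Finset.smul_sum, Finset.sum_smul, smul_smul]
      rw [Finset.sum_comm]
    have h3 := hlam _ h2 j
    simpa [Finset.sum_apply] using h3
  let V : Submodule Qa (Fin (Fintype.card Q) → ℂ) := Submodule.span Qa (Set.range v)
  have hV : ∀ w ∈ V, ∀ i, w i ∈ Lsp := by
    intro w hw i
    induction hw using Submodule.span_induction with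
    | mem x hx =>
      obtain ⟨s, rfl⟩ := hx
      simp only [v, pt]
      exact Submodule.sum_mem _ fun j _ => Submodule.smul_mem _ _ (hlog j)
    | zero => exact Submodule.zero_mem _
    | add x y _ _ hx hy => exact Submodule.add_mem _ hx hy
    | smul a x _ hx => exact Submodule.smul_mem _ _ hx
  have hs : ∀ w ∈ V, ∑ i, g (e.symm i) * w i = 0 := by
    intro w hw
    induction hw using Submodule.span_induction with
    | mem x hx =>
      obtain ⟨s, rfl⟩ := hx
      have := h s
      rw [← this]
      exact e.symm.sum_comp fun i => g i * pt lam (β s) i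
    | zero => simp
    | add x y _ _ hx hy =>
      simp only [Pi.add_apply, mul_add, Finset.sum_add_distrib, hx, hy, add_zero]
    | smul a x _ hx =>
      simp only [Pi.smul_apply, mul_smul_comm]
      rw [← Finset.smul_sum, hx, smul_zero]
  have hgg : LinearIndependent Qa (fun i => g (e.symm i)) := hg.comp _ e.symm.injective
  obtain ⟨hfin, hle⟩ := HP.hp _ hgg V hV hs
  have hN : finrank Qa V = N := by
    rw [finrank_span_eq_card hv, Fintype.card_fin]
  rwa [hN] at hle

/-- A basis of the span of the numbers `g t` among these numbers. PROOF. `exists_linearIndependent`-like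
lemma: a maximal `Finset Q` with `g` independent on it. `Q` is nonempty if some `g t ≠ 0`. -/
theorem exists_sub {ι : Type} [Fintype ι] (g : ι → ℂ) (hg : ∃ t, g t ≠ 0) : ∃ Q : Finset ι,
    Q.Nonempty ∧ LinearIndependent Qa (fun i : {i // i ∈ Q} => g i) ∧
      ∃ γ : {j // j ∉ Q} × {i // i ∈ Q} → Qa, ∀ j, g j.1 = ∑ i, γ (j, i) • g i.1 := by
  classical
  obtain ⟨t0, ht0⟩ := hg
  let P : Finset ι → Prop := fun Q => LinearIndependent Qa (fun i : {i // i ∈ Q} => g i)
  have h0 : P {t0} := by
    have h1 : LinearIndepOn Qa g ({t0} : Set ι) := LinearIndepOn.singleton ht0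
    have h2 : LinearIndepOn Qa g ((({t0} : Finset ι)) : Set ι) := by
      rwa [Finset.coe_singleton]
    exact h2
  obtain ⟨Q, hQmem, hQmax⟩ := Finset.exists_max_image
    ((Finset.univ : Finset (Finset ι)).filter P) Finset.card ⟨{t0}, by simpa using h0⟩
  have hQ : P Q := (Finset.mem_filter.1 hQmem).2
  have hcard : 1 ≤ Q.card := by
    have := hQmax {t0} (by simpa using h0)
    simpa using this
  have key : ∀ j : {j // j ∉ Q}, g j.1 ∈ Submodule.span Qa (Set.range fun i : {i // i ∈ Q} => g i) := by
    intro j
    by_contra hj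
    have hins : P (insert j.1 Q) := by
      have h1 : LinearIndepOn Qa g (insert j.1 (Q : Set ι)) := by
        rw [linearIndepOn_insert (by simpa using j.2)]
        refine ⟨hQ, ?_⟩
        intro h2
        apply hj
        rwa [Set.image_eq_range] at h2
      have h2 : LinearIndepOn Qa g ((insert j.1 Q : Finset ι) : Set ι) := by
        rwa [Finset.coe_insert]
      exact h2
    have := hQmax _ (by simpa using hins)
    rw [Finset.card_insert_of_notMem j.2] at this
    omega
  have key2 : ∀ j : {j // j ∉ Q}, ∃ c : {i // i ∈ Q} → Qa, g j.1 = ∑ i, c i • g i.1 := by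
    intro j
    obtain ⟨c, hc⟩ := (Submodule.mem_span_range_iff_exists_fun Qa).1 (key j)
    exact ⟨c, hc.symm⟩
  choose c hc using key2
  exact ⟨Q, Finset.card_pos.1 hcard, hQ, fun x => c x.1 x.2, fun j => hc j⟩

end MP60829e.SB
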