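import Pool.Agent.Lib.MP_60829e_nt.SB.Defs

/-! # Elimination of the coordinates in `Q` -/

open MvPolynomial Module

namespace MP60829e.SB

open MP60829e.ST (Qa Lsp Lt)

/-- The new parameters: the old ones, the coefficients `γ` and the numbers `b`. -/
abbrev NP (ζ ι : Type) (Q : Finset ι) (r : ℕ) : Type :=
  ζ ⊕ (({j // j ∉ Q} × {i // i ∈ Q}) ⊕ ({i // i ∈ Q} × Fin r))

/-- The point whose coordinates outside `Q` are `x`, and whose coordinates in `Q` are
`b_i lam - ∑ j, γ (j, i) x j`. -/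
noncomputable def full {ι : Type} [Fintype ι] [DecidableEq ι] {r : ℕ} (lam : Fin r → ℂ)
    (Q : Finset ι) (γ : {j // j ∉ Q} × {i // i ∈ Q} → Qa) (b : {i // i ∈ Q} × Fin r → Qa)
    (x : {j // j ∉ Q} → ℂ) (i : ι) : ℂ :=
  if h : i ∈ Q then pt lam b ⟨i, h⟩ - ∑ j, (γ (j, ⟨i, h⟩) : ℂ) * x j else x ⟨i, h⟩

/-- The system in the remaining coordinates. -/
noncomputable def red {ζ ι : Type} [Fintype ι] [DecidableEq ι] {r : ℕ} (lam : Fin r → ℂ)
    (Q : Finset ι) (F : MvPolynomial (ζ ⊕ ι) ℂ) :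
    MvPolynomial (NP ζ ι Q r ⊕ {j // j ∉ Q}) ℂ :=
  aeval (Sum.elim (fun t => X (Sum.inl (Sum.inl t))) fun i =>
    if h : i ∈ Q then ∑ j, C (lam j) * X (Sum.inl (Sum.inr (Sum.inr (⟨i, h⟩, j)))) -
      ∑ j, X (Sum.inl (Sum.inr (Sum.inl (j, ⟨i, h⟩)))) * X (Sum.inr j)
    else X (Sum.inr ⟨i, h⟩)) F

private theorem eval_aeval' {σ τ : Type} (φ : τ → ℂ) (g : σ → MvPolynomial τ ℂ)
    (F : MvPolynomial σ ℂ) : eval φ (aeval g F) = eval (fun s => eval φ (g s)) F := by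
  induction F using MvPolynomial.induction_on with
  | C a => simp
  | add p q hp hq => rw [map_add, map_add, map_add, hp, hq]
  | mul_X p s hp => rw [map_mul, map_mul, map_mul, hp, aeval_X, eval_X]

theorem eval_red {ζ ι : Type} [Fintype ι] [DecidableEq ι] {r : ℕ} (lam : Fin r → ℂ)
    (Q : Finset ι) (F : MvPolynomial (ζ ⊕ ι) ℂ) (z : ζ → Qa)
    (γ : {j // j ∉ Q} × {i // i ∈ Q} → Qa) (b : {i // i ∈ Q} × Fin r → Qa)
    (x : {j // j ∉ Q} → ℂ) :
    eval (pv (Sum.elim z (Sum.elim γ b)) x) (red lam Q F) =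
      eval (pv z (full lam Q γ b x)) F := by
  rw [red, eval_aeval']
  congr 1
  congr 1
  funext s
  rcases s with t | i
  · simp [pv]
  · by_cases h : i ∈ Q
    · simp only [pv, full, Sum.elim_inr, dif_pos h, map_sub, map_sum, map_mul, eval_C, eval_X,
        Sum.elim_inl, pt]
      congr 1
      refine Finset.sum_congr rfl fun j _ => ?_
      rw [mul_comm]
      rfl
    · simp only [pv, full, Sum.elim_inr, dif_neg h, eval_X]

/-- PROOF. `b_i = M_i + ∑ γ M_j` for `i ∈ Q`. -/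
theorem full_pt {ι : Type} [Fintype ι] [DecidableEq ι] {r : ℕ} (lam : Fin r → ℂ)
    (Q : Finset ι) (γ : {j // j ∉ Q} × {i // i ∈ Q} → Qa) (M : ι × Fin r → Qa)
    (b : {i // i ∈ Q} × Fin r → Qa)
    (hb : ∀ i l, b (i, l) = M (i.1, l) + ∑ j, γ (j, i) * M (j.1, l)) :
    full lam Q γ b (pt lam fun p => M (p.1.1, p.2)) = pt lam M := by
  funext i
  by_cases h : i ∈ Q
  · rw [full, dif_pos h, pt, pt]
    have h1 : ∀ l, b (⟨i, h⟩, l) • lam l = M (i, l) • lam l +
        ∑ j : {j // j ∉ Q}, (γ (j, ⟨i, h⟩) : ℂ) * (M (j.1, l) • lam l) := by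
      intro l
      rw [hb, add_smul, Finset.sum_smul]
      congr 1
      refine Finset.sum_congr rfl fun j _ => ?_
      rw [mul_smul]
      rfl
    rw [Finset.sum_congr rfl fun l _ => h1 l, Finset.sum_add_distrib]
    have h2 : ∑ j : {j // j ∉ Q}, (γ (j, ⟨i, h⟩) : ℂ) * pt lam (fun p : {j // j ∉ Q} × Fin r =>
        M (p.1.1, p.2)) j = ∑ l, ∑ j : {j // j ∉ Q}, (γ (j, ⟨i, h⟩) : ℂ) * (M (j.1, l) • lam l) := by
      rw [Finset.sum_comm]
      refine Finset.sum_congr rfl fun j _ => ?_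
      rw [pt, Finset.mul_sum]
    rw [h2, add_sub_cancel_right]
  · rw [full, dif_neg h]
    rfl

/-- The linear map of `exists_R`. -/
noncomputable def redMap {ι : Type} [Fintype ι] [DecidableEq ι] (Q : Finset ι)
    (γ : {j // j ∉ Q} × {i // i ∈ Q} → Qa) : ({j // j ∉ Q} → Qa) →ₗ[Qa] (ι → Qa) where
  toFun ρ i := if h : i ∈ Q then - ∑ j, γ (j, ⟨i, h⟩) * ρ j else ρ ⟨i, h⟩
  map_add' ρ σ := by
    funext i
    by_cases h : i ∈ Q
    · simp only [Pi.add_apply, dif_pos h, mul_add, Finset.sum_add_distrib, neg_add]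
    · simp only [Pi.add_apply, dif_neg h]
  map_smul' c ρ := by
    funext i
    by_cases h : i ∈ Q
    · simp only [Pi.smul_apply, dif_pos h, smul_eq_mul, RingHom.id_apply, mul_neg, Finset.mul_sum]
      congr 1
      exact Finset.sum_congr rfl fun j _ => by ring
    · simp only [Pi.smul_apply, dif_neg h, RingHom.id_apply]

theorem redMap_apply {ι : Type} [Fintype ι] [DecidableEq ι] (Q : Finset ι)
    (γ : {j // j ∉ Q} × {i // i ∈ Q} → Qa) (ρ : {j // j ∉ Q} → Qa) (i : ι) :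
    redMap Q γ ρ i = if h : i ∈ Q then - ∑ j, γ (j, ⟨i, h⟩) * ρ j else ρ ⟨i, h⟩ := rfl

theorem full_add {ι : Type} [Fintype ι] [DecidableEq ι] {r : ℕ} (lam : Fin r → ℂ)
    (Q : Finset ι) (γ : {j // j ∉ Q} × {i // i ∈ Q} → Qa) (b : {i // i ∈ Q} × Fin r → Qa)
    (x : {j // j ∉ Q} → ℂ) (ρ : {j // j ∉ Q} → Qa) :
    full lam Q γ b (fun t => x t + (ρ t : ℂ)) =
      fun t => full lam Q γ b x t + (redMap Q γ ρ t : ℂ) := by
  funext i
  by_cases h : i ∈ Q
  · rw [full, full, redMap_apply, dif_pos h, dif_pos h, dif_pos h]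
    simp only [mul_add, Finset.sum_add_distrib]
    push_cast
    ring
  · rw [full, full, redMap_apply, dif_neg h, dif_neg h, dif_neg h]

/-- A subspace of directions of the reduced system comes from a subspace of directions of the old
one. PROOF. The injective linear map `R' → (ι → Qa)`, `ρ ↦` the vector with the coordinates `ρ j` for
`j ∉ Q` and `- ∑ j, γ (j, i) ρ j` for `i ∈ Q`; its range is `R`. -/
theorem exists_R {ζ ι : Type} [Fintype ι] [DecidableEq ι] {r s : ℕ} (lam : Fin r → ℂ)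
    (Q : Finset ι) (F : Fin s → MvPolynomial (ζ ⊕ ι) ℂ) (z : ζ → Qa)
    (γ : {j // j ∉ Q} × {i // i ∈ Q} → Qa) (b : {i // i ∈ Q} × Fin r → Qa)
    (x : {j // j ∉ Q} → ℂ) (R' : Submodule Qa ({j // j ∉ Q} → Qa))
    (hR' : ∀ ρ ∈ R', ∀ i, eval (pv (Sum.elim z (Sum.elim γ b)) fun t => x t + (ρ t : ℂ))
      (red lam Q (F i)) = 0) :
    ∃ R : Submodule Qa (ι → Qa), finrank Qa R = finrank Qa R' ∧
      ∀ ρ ∈ R, ∀ i, eval (pv z fun t => full lam Q γ b x t + (ρ t : ℂ)) (F i) = 0 := by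
  have hinj : Function.Injective (redMap Q γ) := by
    intro ρ σ h
    funext j
    have h1 := congrFun h j.1
    rw [redMap_apply, redMap_apply, dif_neg j.2, dif_neg j.2] at h1
    exact h1
  refine ⟨R'.map (redMap Q γ), ?_, ?_⟩
  · exact (LinearEquiv.finrank_eq (Submodule.equivMapOfInjective _ hinj R')).symm
  · rintro _ ⟨ρ, hρ, rfl⟩ i
    have h1 := hR' ρ hρ i
    rw [eval_red, full_add] at h1
    exact h1

end MP60829e.SB
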