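import Mathlib
import Pool.Agent.Lib.MP_60829e_nt.ST.StrField
import Pool.Agent.Lib.MP_60829e_nt.PS.UDefs

/-! # Theorem S (bounded dimension): definitions

`ζ` indexes the parameters of a family of algebraic sets, `ι` the coordinates. -/

open MvPolynomial Module

namespace MP60829e.SB

open MP60829e.ST (Qa Lsp Lt)
open MP60829e.PS

/-- The point with the coordinates `∑ j, M (i, j) lam j`. -/
noncomputable def pt {ι : Type} {r : ℕ} (lam : Fin r → ℂ) (M : ι × Fin r → Qa) (i : ι) : ℂ :=
  ∑ j, M (i, j) • lam j

/-- The pair of a parameter over `Qa` and a complex point. -/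
noncomputable def pv {ζ ι : Type} (z : ζ → Qa) (x : ι → ℂ) : ζ ⊕ ι → ℂ :=
  Sum.elim (fun t => (z t : ℂ)) x

/-- Evaluation of derivations at a finite family. -/
noncomputable def evl {k K σ : Type} [Field k] [Field K] [Algebra k K] (x : σ → K) :
    Derivation k K K →ₗ[K] (σ → K) where
  toFun D := fun s => D (x s)
  map_add' _ _ := rfl
  map_smul' _ _ := rfl

theorem evl_apply {k K σ : Type} [Field k] [Field K] [Algebra k K] (x : σ → K)
    (D : Derivation k K K) (s : σ) : evl x D s = D (x s) := rfl

/-- The dimension of the space of the vectors `(D (x s))_s`, `D ∈ Δ`. -/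
noncomputable def rk {k K σ : Type} [Field k] [Field K] [Algebra k K]
    (Δ : Submodule K (Derivation k K K)) (x : σ → K) : ℕ :=
  finrank K (Δ.map (evl x))

/-- The class in the ultrapower of a family of points. -/
noncomputable def cls {I σ : Type} (U : Ultrafilter I) (M : I → σ → Qa) (s : σ) : UP U Qa :=
  UP.mk U fun a => M a s

end MP60829e.SB
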