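import Mathlib

/-! # The first nonvanishing derivative -/

open MvPolynomial

namespace MP60829e.SB

/-- Iterated derivatives lose degree. -/
private theorem supp_iter {σ : Type} (i : List σ) (p : MvPolynomial σ ℂ) :
    ∀ m : σ →₀ ℕ, coeff m (i.foldr (fun i G => pderiv i G) p) ≠ 0 →
      (m.sum fun _ e => e) + i.length ≤ p.totalDegree := by
  induction i with
  | nil =>
    intro m hm
    simpa using le_totalDegree (mem_support_iff.2 hm)
  | cons a l ih =>
    intro m hm
    rw [List.foldr_cons, coeff_pderiv] at hm
    have h1 := ih (m + Finsupp.single a 1) (left_ne_zero_of_mul hm)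
    rw [Finsupp.sum_add_index' (by simp) (by simp), Finsupp.sum_single_index (by simp)] at h1
    rw [List.length_cons]
    omega

private theorem iter_length {σ : Type} (l : List σ) (p : MvPolynomial σ ℂ)
    (h : l.foldr (fun i G => pderiv i G) p ≠ 0) : l.length ≤ p.totalDegree := by
  obtain ⟨m, hm⟩ := (MvPolynomial.ne_zero_iff).1 h
  have := supp_iter l p m hm
  omega

private theorem exists_iter_ne {ι : Type} [Fintype ι] (w : ι → ℂ) :
    ∀ (d : ℕ) (p : MvPolynomial ι ℂ), p ≠ 0 → p.totalDegree ≤ d →
      ∃ l : List ι, eval w (l.foldr (fun i G => pderiv i G) p) ≠ 0 := by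
  classical
  intro d
  induction d with
  | zero =>
    intro p hp hd
    have h0 : p.totalDegree = 0 := by omega
    rw [totalDegree_eq_zero_iff_eq_C] at h0
    refine ⟨[], ?_⟩
    rw [List.foldr_nil]
    rw [h0, eval_C]
    intro hc
    apply hp
    rw [h0, hc, C_0]
  | succ d ih =>
    intro p hp hd
    by_cases h0 : ∃ i, pderiv i p ≠ 0
    · obtain ⟨i, hi⟩ := h0
      have hdeg : (pderiv i p).totalDegree ≤ d := by
        rw [totalDegree, Finset.sup_le_iff]
        intro m hm
        have := supp_iter [i] p m (by simpa using (mem_support_iff.1 hm))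
        simp only [List.length_cons, List.length_nil] at this
        omega
      obtain ⟨l, hl⟩ := ih (pderiv i p) hi hdeg
      refine ⟨l ++ [i], ?_⟩
      rw [List.foldr_append]
      exact hl
    · push Not at h0
      refine ⟨[], ?_⟩
      rw [List.foldr_nil]
      have hC : p = C (coeff 0 p) := by
        ext m
        rw [coeff_C]
        split_ifs with hm
        · rw [hm]
        · obtain ⟨i, hi⟩ : ∃ i, m i ≠ 0 := by
            by_contra hne
            push Not at hne
            exact hm (Finsupp.ext fun i => (hne i).symm)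
          have h1 := coeff_pderiv (i := i) p (m - Finsupp.single i 1)
          rw [h0 i, coeff_zero] at h1
          have h2 : m - Finsupp.single i 1 + Finsupp.single i 1 = m := by
            ext j
            simp only [Finsupp.coe_add, Finsupp.coe_tsub, Pi.add_apply, Pi.sub_apply]
            rcases eq_or_ne i j with rfl | hij
            · simp only [Finsupp.single_eq_same]; omega
            · rw [Finsupp.single_eq_of_ne' hij]; omega
          rw [h2] at h1
          rcases mul_eq_zero.1 h1.symm with h3 | h3
          · exact h3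
          · exact absurd h3 (Nat.cast_add_one_ne_zero _)
      rw [hC, eval_C]
      intro hc
      apply hp
      rw [hC, hc, C_0]

private theorem spec_pderiv {ζ ι : Type} (z : ζ → ℂ) (i : ι) (G : MvPolynomial (ζ ⊕ ι) ℂ) :
    aeval (Sum.elim (fun t => (C (z t) : MvPolynomial ι ℂ)) X) (pderiv (Sum.inr i) G) =
      pderiv i (aeval (Sum.elim (fun t => (C (z t) : MvPolynomial ι ℂ)) X) G) := by
  classical
  induction G using MvPolynomial.induction_on with
  | C a => simp
  | add p q hp hq => rw [map_add, map_add, map_add, map_add, hp, hq]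
  | mul_X p q h =>
    simp only [Derivation.leibniz, pderiv_X, smul_eq_mul, map_add, map_mul, aeval_X, h]
    cases q <;> simp [Pi.single_apply]

private theorem spec_iter {ζ ι : Type} (z : ζ → ℂ) (l : List ι) (G : MvPolynomial (ζ ⊕ ι) ℂ) :
    aeval (Sum.elim (fun t => (C (z t) : MvPolynomial ι ℂ)) X)
        ((l.map Sum.inr).foldr (fun i G => pderiv i G) G) =
      l.foldr (fun i G => pderiv i G)
        (aeval (Sum.elim (fun t => (C (z t) : MvPolynomial ι ℂ)) X) G) := by
  induction l with
  | nil => rfl
  | cons a l ih =>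
    rw [List.map_cons, List.foldr_cons, spec_pderiv, ih, List.foldr_cons]

private theorem eval_spec {ζ ι : Type} (z : ζ → ℂ) (w : ι → ℂ) (G : MvPolynomial (ζ ⊕ ι) ℂ) :
    eval w (aeval (Sum.elim (fun t => (C (z t) : MvPolynomial ι ℂ)) X) G) =
      eval (Sum.elim z w) G := by
  induction G using MvPolynomial.induction_on with
  | C a => simp
  | add p q hp hq => rw [map_add, map_add, map_add, hp, hq]
  | mul_X p q h =>
    rw [map_mul, map_mul, map_mul, h, aeval_X, eval_X]
    cases q <;> simp

/-- PROOF. `L` = the set of the iterated derivatives `l.foldr (fun i G => pderiv (Sum.inr i) G) F` for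
the lists `l` of elements of `ι` of length at most `F.totalDegree`. Fix `z` and let `p` be the
polynomial `F (z, ·)` in the variables `ι` (`aeval` with `C (z t)` and `X i`); its iterated derivatives
are those of `F` at `z`. A polynomial `p ≠ 0` in the variables `ι` of total degree `≤ d` has an iterated
derivative of order `≤ d` which is not zero at `w` (induction on `d`: if all `pderiv i p` are zero then
`p` is a constant, otherwise apply the induction to a nonzero `pderiv i p`, of total degree `< d`).
Take the shortest list with a value `≠ 0` at `w`; it is `i :: l`, and `l` gives `G`. -/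
theorem exists_iter {ζ ι : Type} [Fintype ζ] [Fintype ι] (F : MvPolynomial (ζ ⊕ ι) ℂ) :
    ∃ L : Finset (MvPolynomial (ζ ⊕ ι) ℂ), ∀ (z : ζ → ℂ) (w x : ι → ℂ),
      eval (Sum.elim z w) F = 0 → eval (Sum.elim z x) F ≠ 0 →
      ∃ G ∈ L, eval (Sum.elim z w) G = 0 ∧
        ∃ i, eval (Sum.elim z w) (pderiv (Sum.inr i) G) ≠ 0 := by
  classical
  set D : List ι → MvPolynomial (ζ ⊕ ι) ℂ := fun l =>
    (l.map Sum.inr).foldr (fun i G => pderiv i G) F with hD
  refine ⟨((List.finite_length_le ι F.totalDegree).toFinset).image D, ?_⟩
  intro z w x hw hx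
  have hp : aeval (Sum.elim (fun t => (C (z t) : MvPolynomial ι ℂ)) X) F ≠ 0 := by
    intro h0
    apply hx
    rw [← eval_spec, h0, map_zero]
  obtain ⟨l, hl⟩ := exists_iter_ne w _ _ hp le_rfl
  rw [← spec_iter, eval_spec] at hl
  have key : ∀ l : List ι, eval (Sum.elim z w) (D l) ≠ 0 →
      ∃ l' : List ι, eval (Sum.elim z w) (D l') = 0 ∧
        ∃ i, eval (Sum.elim z w) (pderiv (Sum.inr i) (D l')) ≠ 0 := by
    intro l
    induction l with
    | nil => intro h; exact absurd hw h
    | cons a l ih =>
      intro h
      by_cases h1 : eval (Sum.elim z w) (D l) = 0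
      · exact ⟨l, h1, a, h⟩
      · exact ih h1
  obtain ⟨l', h1, i, h2⟩ := key l hl
  refine ⟨D l', Finset.mem_image.2 ⟨l', ?_, rfl⟩, h1, i, h2⟩
  rw [Set.Finite.mem_toFinset, Set.mem_ofPred_eq]
  have h3 : (((i :: l').map Sum.inr : List (ζ ⊕ ι)).foldr (fun i G => pderiv i G) F) ≠ 0 := by
    intro h0
    apply h2
    have h4 : pderiv (Sum.inr i) (D l') = 0 := h0
    rw [h4, map_zero]
  have h5 := iter_length _ _ h3
  rw [List.length_map, List.length_cons] at h5
  omega

end MP60829e.SB
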