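import Pool.Agent.Lib.MP_60829e_nt.SB.Rk
import Pool.Agent.Lib.MP_60829e_nt.SB.Los
import Pool.Agent.Lib.MP_60829e_nt.SB.Hyp
import Pool.Agent.Lib.MP_60829e_nt.SB.Iter
import Pool.Agent.Lib.MP_60829e_nt.SB.Tan
import Pool.Agent.Lib.MP_60829e_nt.SB.Red

/-! # The induction on the number of coordinates -/

open MvPolynomial Module

namespace MP60829e.SB

open MP60829e.ST (Qa Lsp Lt)
open MP60829e.PS

/-- A finite choice is constant almost everywhere. -/
private theorem fix {I J : Type} [Finite J] (U : Ultrafilter I) (p : I → J → Prop)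
    (h : ∀ᶠ a in (U : Filter I), ∃ j, p a j) : ∃ j, ∀ᶠ a in (U : Filter I), p a j := by
  have h1 : (⋃ j ∈ (Set.univ : Set J), {a | p a j}) ∈ U := by
    filter_upwards [h] with a ha
    obtain ⟨j, hj⟩ := ha
    simp only [Set.mem_iUnion]
    exact ⟨j, Set.mem_univ j, hj⟩
  rw [Ultrafilter.finite_biUnion_mem_iff Set.finite_univ] at h1
  obtain ⟨j, -, hj⟩ := h1
  exact ⟨j, hj⟩

private theorem cls_b {I ι : Type} [Fintype ι] [DecidableEq ι] {r : ℕ} (U : Ultrafilter I)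
    (Q : Finset ι) (γ : I → {j // j ∉ Q} × {i // i ∈ Q} → Qa) (M : I → ι × Fin r → Qa)
    (b : I → {i // i ∈ Q} × Fin r → Qa)
    (hb : ∀ a i l, b a (i, l) = M a (i.1, l) + ∑ j, γ a (j, i) * M a (j.1, l))
    (i : {i // i ∈ Q}) (l : Fin r) :
    cls U b (i, l) = cls U M (i.1, l) + ∑ j, cls U γ (j, i) * cls U M (j.1, l) := by
  unfold cls
  simp only [hb]
  have h1 : (fun a => M a (i.1, l) + ∑ j, γ a (j, i) * M a (j.1, l)) =
      (fun a => M a (i.1, l)) + ∑ j, (fun a => γ a (j, i)) * (fun a => M a (j.1, l)) := by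
    funext a
    simp only [Pi.add_apply, Finset.sum_apply, Pi.mul_apply]
  rw [h1, map_add, map_sum]
  simp only [map_mul]

private theorem der_b {I ι : Type} [Fintype ι] [DecidableEq ι] {r : ℕ} (U : Ultrafilter I)
    (Q : Finset ι) (γ : I → {j // j ∉ Q} × {i // i ∈ Q} → Qa) (M : I → ι × Fin r → Qa)
    (b : I → {i // i ∈ Q} × Fin r → Qa)
    (hb : ∀ a i l, b a (i, l) = M a (i.1, l) + ∑ j, γ a (j, i) * M a (j.1, l))
    (D : Derivation Qa (UP U Qa) (UP U Qa)) (hD : ∀ p, D (cls U γ p) = 0)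
    (i : {i // i ∈ Q}) (l : Fin r) :
    D (cls U b (i, l)) = D (cls U M (i.1, l)) + ∑ j, cls U γ (j, i) * D (cls U M (j.1, l)) := by
  rw [cls_b U Q γ M b hb, map_add, map_sum]
  congr 1
  refine Finset.sum_congr rfl fun j _ => ?_
  rw [Derivation.leibniz, hD, smul_zero, add_zero, smul_eq_mul]

/-- `b_i = M_i + ∑ γ M_j`: the derivations in `Δ` which kill `z` and `γ` give at most
`e (e + 1)` independent vectors `D b`. PROOF. Otherwise take derivations `D s`
(`exists_of_le_rk`), representatives `T s` of `D s M`; then `b (T s)` (formula of `b` with `T` in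
place of `M`) represents `D s b`; `tangent` for `G`, and
`∑ t, g t * pt (T s) t = ∑ i ∈ Q, g i * pt (b (T s)) i`; `eventually_li`, `hyp_count`. -/
theorem rk_b {I ζ ι : Type} [Fintype ζ] [Fintype ι] [DecidableEq ι] {r : ℕ}
    (lam : Fin r → ℂ) (hlam : LinearIndependent Qa lam) (hlog : ∀ j, lam j ∈ Lsp)
    (U : Ultrafilter I) (G : MvPolynomial (ζ ⊕ ι) ℂ) (z : I → ζ → Qa) (M : I → ι × Fin r → Qa)
    (h : ∀ᶠ a in (U : Filter I), eval (pv (z a) (pt lam (M a))) G = 0) (Q : Finset ι)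
    (γ : I → {j // j ∉ Q} × {i // i ∈ Q} → Qa)
    (hli : ∀ᶠ a in (U : Filter I), LinearIndependent Qa fun i : {i // i ∈ Q} =>
      eval (pv (z a) (pt lam (M a))) (pderiv (Sum.inr i.1) G))
    (hγ : ∀ᶠ a in (U : Filter I), ∀ j : {j // j ∉ Q},
      eval (pv (z a) (pt lam (M a))) (pderiv (Sum.inr j.1) G) =
        ∑ i, γ a (j, i) • eval (pv (z a) (pt lam (M a))) (pderiv (Sum.inr i.1) G))
    (b : I → {i // i ∈ Q} × Fin r → Qa)
    (hb : ∀ a i l, b a (i, l) = M a (i.1, l) + ∑ j, γ a (j, i) * M a (j.1, l))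
    (Δ : Submodule (UP U Qa) (Derivation Qa (UP U Qa) (UP U Qa)))
    (hz : ∀ D ∈ Δ, ∀ t, D (cls U z t) = 0) (hg : ∀ D ∈ Δ, ∀ p, D (cls U γ p) = 0) :
    rk Δ (cls U b) ≤ Q.card * (Q.card + 1) := by
  by_contra hlt
  push Not at hlt
  obtain ⟨D, hDΔ, hDli⟩ := exists_of_le_rk Δ (cls U b) (N := Q.card * (Q.card + 1) + 1) hlt
  have hT : ∀ (s : Fin (Q.card * (Q.card + 1) + 1)) (p : ι × Fin r), ∃ t : I → Qa,
      UP.mk U t = D s (cls U M p) := fun s p => UP.mk_surjective U _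
  choose t ht using hT
  let T : Fin (Q.card * (Q.card + 1) + 1) → I → ι × Fin r → Qa := fun s a p => t s p a
  let bT : I → Fin (Q.card * (Q.card + 1) + 1) → {i // i ∈ Q} × Fin r → Qa := fun a s p =>
    T s a (p.1.1, p.2) + ∑ j, γ a (j, p.1) * T s a (j.1, p.2)
  have hT' : ∀ s p, cls U (T s) p = D s (cls U M p) := fun s p => ht s p
  have hbT : ∀ s, cls U (fun a => bT a s) = evl (cls U b) (D s) := by
    intro s
    funext p
    obtain ⟨i, l⟩ := p
    rw [evl_apply, der_b U Q γ M b hb (D s) (hg _ (hDΔ s)) i l,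
      cls_b U Q γ (T s) (fun a => bT a s) (fun a i l => rfl) i l]
    simp only [hT']
  have h1 : ∀ᶠ a in (U : Filter I), LinearIndependent Qa (bT a) := by
    refine eventually_li U bT ?_
    simp only [hbT]
    exact hDli
  have h2 : ∀ᶠ a in (U : Filter I), ∀ s,
      ∑ i, eval (pv (z a) (pt lam (M a))) (pderiv (Sum.inr i) G) * pt lam (T s a) i = 0 := by
    rw [Filter.eventually_all]
    exact fun s => tangent U lam G z M h (D s) (hz _ (hDΔ s)) (T s) (hT' s)
  obtain ⟨a, ⟨⟨ha1, ha2⟩, ha3⟩, ha4⟩ := (((h1.and h2).and hli).and hγ).exists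
  have h3 := hyp_count lam hlam hlog _ ha3 (bT a) ha1 (by
    intro s
    rw [← ha2 s]
    have h4 : ∀ i : {i // i ∈ Q}, pt lam (bT a s) i =
        pt lam (T s a) i.1 + ∑ j : {j // j ∉ Q}, γ a (j, i) • pt lam (T s a) j.1 := by
      intro i
      unfold pt
      simp only [bT, add_smul, Finset.sum_smul, Finset.sum_add_distrib, Finset.smul_sum, mul_smul]
      congr 1
      exact Finset.sum_comm
    have h5 : ∑ t, eval (pv (z a) (pt lam (M a))) (pderiv (Sum.inr t) G) * pt lam (T s a) t =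
        ∑ i : {i // i ∈ Q}, eval (pv (z a) (pt lam (M a))) (pderiv (Sum.inr i.1) G) *
          pt lam (T s a) i.1 +
        ∑ j : {j // j ∉ Q}, eval (pv (z a) (pt lam (M a))) (pderiv (Sum.inr j.1) G) *
          pt lam (T s a) j.1 := by
      obtain ⟨f, hf⟩ : ∃ f : ι → ℂ, f = fun t =>
        eval (pv (z a) (pt lam (M a))) (pderiv (Sum.inr t) G) * pt lam (T s a) t := ⟨_, rfl⟩
      have hf' : ∀ t, eval (pv (z a) (pt lam (M a))) (pderiv (Sum.inr t) G) *
          pt lam (T s a) t = f t := fun t => by rw [hf]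
      simp only [hf']
      rw [← Fintype.sum_subtype_add_sum_subtype (fun i => i ∈ Q) f]
      refine congrArg₂ (· + ·) (Finset.sum_congr ?_ fun _ _ => rfl) rfl
      ext i
      simp
    rw [h5]
    simp only [h4, mul_add, Finset.sum_add_distrib, Finset.mul_sum]
    congr 1
    rw [Finset.sum_comm]
    refine Finset.sum_congr rfl fun j _ => ?_
    rw [ha4 j, Finset.sum_mul]
    refine Finset.sum_congr rfl fun i _ => ?_
    rw [mul_smul_comm, smul_mul_assoc])
  rw [Fintype.card_coe] at h3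
  omega

/-- The claim. PROOF. Strong induction on `card ι`. -/
theorem claim {I : Type} {r : ℕ} (lam : Fin r → ℂ) (hlam : LinearIndependent Qa lam)
    (hlog : ∀ j, lam j ∈ Lsp) (U : Ultrafilter I) (j m : ℕ) :
    ∀ (ζ ι : Type) [Fintype ζ] [Fintype ι] (_ : Fintype.card ι = m) {s : ℕ}
      (F : Fin s → MvPolynomial (ζ ⊕ ι) ℂ) (z : I → ζ → Qa) (M : I → ι × Fin r → Qa)
      (Δ : Submodule (UP U Qa) (Derivation Qa (UP U Qa) (UP U Qa)))
      (_ : ∀ D ∈ Δ, ∀ t, D (cls U z t) = 0)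
      (_ : ∀ᶠ a in (U : Filter I), ∀ i, eval (pv (z a) (pt lam (M a))) (F i) = 0)
      (_ : ∀ᶠ a in (U : Filter I), ∀ R : Submodule Qa (ι → Qa),
        (∀ ρ ∈ R, ∀ i, eval (pv (z a) fun t => pt lam (M a) t + (ρ t : ℂ)) (F i) = 0) →
        finrank Qa R ≤ j),
      rk Δ (cls U M) ≤ j * r + m * (m + 1) := by
  classical
  induction m using Nat.strong_induction_on with
  | _ m ih =>
  intro ζ ι _ _ hcard s F z M Δ hz h0 hj
  by_cases hA : ∀ᶠ a in (U : Filter I), ∀ i x, eval (pv (z a) x) (F i) = 0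
  · obtain ⟨a, ha1, ha2⟩ := (hA.and hj).exists
    have h1 := ha2 ⊤ (fun ρ _ i => ha1 i _)
    rw [finrank_top, finrank_fintype_fun_eq_card, hcard] at h1
    have h2 := rk_le_card Δ (cls U M)
    rw [Fintype.card_prod, Fintype.card_fin, hcard] at h2
    calc rk Δ (cls U M) ≤ m * r := h2
      _ ≤ j * r := Nat.mul_le_mul_right r h1
      _ ≤ j * r + m * (m + 1) := Nat.le_add_right _ _
  · rw [← Ultrafilter.eventually_not] at hA
    have hB : ∀ᶠ a in (U : Filter I), ∃ i, ∃ x, eval (pv (z a) x) (F i) ≠ 0 := by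
      filter_upwards [hA] with a ha
      push Not at ha
      exact ha
    obtain ⟨i0, hi0⟩ := fix U _ hB
    obtain ⟨L, hL⟩ := exists_iter (F i0)
    have hC : ∀ᶠ a in (U : Filter I), ∃ G : {G // G ∈ L},
        eval (pv (z a) (pt lam (M a))) G.1 = 0 ∧
          ∃ t, eval (pv (z a) (pt lam (M a))) (pderiv (Sum.inr t) G.1) ≠ 0 := by
      filter_upwards [hi0, h0] with a ha1 ha2
      obtain ⟨x, hx⟩ := ha1
      obtain ⟨G, hGL, hG⟩ := hL _ _ _ (ha2 i0) hx
      exact ⟨⟨G, hGL⟩, hG⟩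
    obtain ⟨⟨G, hGL⟩, hG⟩ := fix U _ hC
    have hE : ∀ᶠ a in (U : Filter I), ∃ Q : Finset ι, Q.Nonempty ∧
        LinearIndependent Qa (fun i : {i // i ∈ Q} =>
          eval (pv (z a) (pt lam (M a))) (pderiv (Sum.inr i.1) G)) ∧
        ∃ γ : {j // j ∉ Q} × {i // i ∈ Q} → Qa, ∀ j : {j // j ∉ Q},
          eval (pv (z a) (pt lam (M a))) (pderiv (Sum.inr j.1) G) =
            ∑ i, γ (j, i) • eval (pv (z a) (pt lam (M a))) (pderiv (Sum.inr i.1) G) := by
      filter_upwards [hG] with a ha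
      exact exists_sub (fun t => eval (pv (z a) (pt lam (M a))) (pderiv (Sum.inr t) G)) ha.2
    obtain ⟨Q, hQ⟩ := fix U _ hE
    have hQne : Q.Nonempty := by
      obtain ⟨a, ha⟩ := hQ.exists
      exact ha.1
    have hch : ∀ a, ∃ γ : {j // j ∉ Q} × {i // i ∈ Q} → Qa,
        (∃ γ : {j // j ∉ Q} × {i // i ∈ Q} → Qa, ∀ j : {j // j ∉ Q},
          eval (pv (z a) (pt lam (M a))) (pderiv (Sum.inr j.1) G) =
            ∑ i, γ (j, i) • eval (pv (z a) (pt lam (M a))) (pderiv (Sum.inr i.1) G)) →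
        ∀ j : {j // j ∉ Q},
          eval (pv (z a) (pt lam (M a))) (pderiv (Sum.inr j.1) G) =
            ∑ i, γ (j, i) • eval (pv (z a) (pt lam (M a))) (pderiv (Sum.inr i.1) G) := by
      intro a
      by_cases h : ∃ γ : {j // j ∉ Q} × {i // i ∈ Q} → Qa, ∀ j : {j // j ∉ Q},
          eval (pv (z a) (pt lam (M a))) (pderiv (Sum.inr j.1) G) =
            ∑ i, γ (j, i) • eval (pv (z a) (pt lam (M a))) (pderiv (Sum.inr i.1) G)
      · obtain ⟨γ, hγ⟩ := h
        exact ⟨γ, fun _ => hγ⟩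
      · exact ⟨0, fun h' => absurd h' h⟩
    choose γ hγ' using hch
    have hγ : ∀ᶠ a in (U : Filter I), ∀ j : {j // j ∉ Q},
        eval (pv (z a) (pt lam (M a))) (pderiv (Sum.inr j.1) G) =
          ∑ i, γ a (j, i) • eval (pv (z a) (pt lam (M a))) (pderiv (Sum.inr i.1) G) := by
      filter_upwards [hQ] with a ha
      exact hγ' a ha.2.2
    have hli : ∀ᶠ a in (U : Filter I), LinearIndependent Qa (fun i : {i // i ∈ Q} =>
        eval (pv (z a) (pt lam (M a))) (pderiv (Sum.inr i.1) G)) := by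
      filter_upwards [hQ] with a ha
      exact ha.2.1
    let b : I → {i // i ∈ Q} × Fin r → Qa := fun a p =>
      M a (p.1.1, p.2) + ∑ j, γ a (j, p.1) * M a (j.1, p.2)
    have hb : ∀ a i l, b a (i, l) = M a (i.1, l) + ∑ j, γ a (j, i) * M a (j.1, l) :=
      fun a i l => rfl
    let M' : I → {j // j ∉ Q} × Fin r → Qa := fun a p => M a (p.1.1, p.2)
    obtain ⟨Δ1, hΔ1⟩ : ∃ Δ1, Δ1 = Δ ⊓ LinearMap.ker (evl (cls U γ)) := ⟨_, rfl⟩
    obtain ⟨Δ2, hΔ2⟩ : ∃ Δ2, Δ2 = Δ1 ⊓ LinearMap.ker (evl (cls U b)) := ⟨_, rfl⟩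
    have hz1 : ∀ D ∈ Δ1, ∀ t, D (cls U z t) = 0 := by
      intro D hD
      rw [hΔ1] at hD
      exact hz D hD.1
    have hg1 : ∀ D ∈ Δ1, ∀ p, D (cls U γ p) = 0 := by
      intro D hD p
      rw [hΔ1] at hD
      exact congrFun (LinearMap.mem_ker.1 hD.2) p
    have hz2 : ∀ D ∈ Δ2, ∀ t, D (cls U z t) = 0 := by
      intro D hD
      rw [hΔ2] at hD
      exact hz1 D hD.1
    have hg2 : ∀ D ∈ Δ2, ∀ p, D (cls U γ p) = 0 := by
      intro D hD
      rw [hΔ2] at hD
      exact hg1 D hD.1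
    have hb2 : ∀ D ∈ Δ2, ∀ p, D (cls U b p) = 0 := by
      intro D hD p
      rw [hΔ2] at hD
      exact congrFun (LinearMap.mem_ker.1 hD.2) p
    have k1 : rk Δ (cls U M) ≤ rk Δ1 (cls U M) + rk Δ (cls U γ) := by
      rw [hΔ1]
      exact rk_split Δ _ _
    have k2 : rk Δ1 (cls U M) ≤ rk Δ2 (cls U M) + rk Δ1 (cls U b) := by
      rw [hΔ2]
      exact rk_split Δ1 _ _
    have k3 : rk Δ1 (cls U b) ≤ Q.card * (Q.card + 1) :=
      rk_b lam hlam hlog U G z M (hG.mono fun a ha => ha.1) Q γ hli hγ b hb Δ1 hz1 hg1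
    have hc : Fintype.card {j // j ∉ Q} = m - Q.card := by
      rw [Fintype.card_subtype_compl, Fintype.card_coe, hcard]
    have hQc : Q.card ≤ m := by
      rw [← hcard]
      exact Finset.card_le_univ Q
    have hQ1 : 1 ≤ Q.card := Finset.card_pos.2 hQne
    have k4 : rk Δ (cls U γ) ≤ (m - Q.card) * Q.card := by
      have := rk_le_card Δ (cls U γ)
      rwa [Fintype.card_prod, hc, Fintype.card_coe] at this
    have k5 : rk Δ2 (cls U M) ≤ rk Δ2 (cls U M') := by
      refine rk_le_of_forall Δ2 _ _ fun D hD hD' p => ?_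
      obtain ⟨i, l⟩ := p
      by_cases hi : i ∈ Q
      · have h1 := der_b U Q γ M b hb D (hg2 D hD) ⟨i, hi⟩ l
        rw [hb2 D hD] at h1
        have h2 : ∀ j : {j // j ∉ Q}, D (cls U M (j.1, l)) = 0 := fun j => hD' (j, l)
        simp only [h2, mul_zero, Finset.sum_const_zero, add_zero] at h1
        exact h1.symm
      · exact hD' (⟨i, hi⟩, l)
    have k6 : rk Δ2 (cls U M') ≤ j * r + (m - Q.card) * ((m - Q.card) + 1) := by
      refine ih (m - Q.card) (by omega) (NP ζ ι Q r) {j // j ∉ Q} hc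
        (fun i => red lam Q (F i)) (fun a => Sum.elim (z a) (Sum.elim (γ a) (b a))) M' Δ2 ?_ ?_ ?_
      · rintro D hD (t | t | t)
        · exact hz2 D hD t
        · exact hg2 D hD t
        · exact hb2 D hD t
      · filter_upwards [h0] with a ha i
        rw [eval_red, full_pt lam Q (γ a) (M a) (b a) (hb a)]
        exact ha i
      · filter_upwards [hj] with a ha R' hR'
        obtain ⟨R, hR1, hR2⟩ := exists_R lam Q F (z a) (γ a) (b a) (pt lam (M' a)) R' hR'
        rw [← hR1]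
        refine ha R fun ρ hρ i => ?_
        have h1 := hR2 ρ hρ i
        rw [full_pt lam Q (γ a) (M a) (b a) (hb a)] at h1
        exact h1
    obtain ⟨m', hm'⟩ : ∃ m', m = m' + Q.card := ⟨m - Q.card, by omega⟩
    have h3 : m - Q.card = m' := by omega
    rw [h3] at k4 k6
    have h4 : m' * Q.card + Q.card * (Q.card + 1) + m' * (m' + 1) ≤ m * (m + 1) := by
      rw [hm']
      nlinarith [Nat.zero_le (m' * Q.card)]
    omega

end MP60829e.SB
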