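import Pool.Agent.Lib.MP_60829e_nt.SB.IndS
import Pool.Agent.Lib.MP_60829e_nt.SB.Count
import Pool.Agent.Lib.MP_60829e_nt.BBaker

/-! # Theorem S, sharp constant -/

open MvPolynomial Module

namespace MP60829e.SB

open MP60829e.ST (Qa Lsp Lt)
open MP60829e.PS

/-- The bad pairs: `M lam` is in the algebraic set of the parameter `z`, which contains no translate
of a rational subspace of dimension larger than `j` through this point. -/
def BadS {ζ ι : Type} {r s : ℕ} (lam : Fin r → ℂ) (F : Fin s → MvPolynomial (ζ ⊕ ι) ℂ) (j : ℕ)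
    (z : ζ → Qa) (M : ι × Fin r → Qa) : Prop :=
  (∀ i, eval (pv z (pt lam M)) (F i) = 0) ∧
    ∀ R : Submodule Qa (ι → Qa),
      (∀ ρ ∈ R, ∀ i, eval (pv z fun t => pt lam M t + (ρ t : ℂ)) (F i) = 0) → finrank Qa R ≤ j

/-- Baker: independence over the algebraic numbers -/
private theorem sbms_li {r : ℕ} (lam : Fin r → ℂ)
    (hl : ∀ i, IsAlgebraic ℚ (Complex.exp (lam i))) (hli : LinearIndependent ℚ lam) :
    LinearIndependent Qa lam := by
  rw [Fintype.linearIndependent_iff]
  intro g hg i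
  have h1 : ∑ i, lam i * ((g i : Qa) : ℂ) = 0 := by
    rw [← hg]
    refine Finset.sum_congr rfl fun i _ => ?_
    rw [mul_comm]
    rfl
  have h2 := Pool.Agent.Lib.MP_60829e_nt.Bk.baker_hom lam hl hli (fun i => ((g i : Qa) : ℂ))
    (fun i => (mem_algebraicClosure_iff.1 (g i).2)) h1 i
  exact Subtype.ext h2

/-- Theorem S, dimension form. PROOF. Otherwise `FC.exists_ultra` for the index set
`I = {(z, M) // BadS}` and `Y = M` restricted to `J` gives an ultrafilter `U` for which the classes of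
the coordinates in `J` are algebraically independent over `Qa`;
`exists_derivation_of_algebraicIndependent` gives `D s`, `s ∈ J`; `le_rk_of_delta`;
`rk_split` for `⊤` and `y = cls U z`, `rk_le_card`, `claimS` for `Δ = ker (evl (cls U z))`:
`J.card ≤ rk ⊤ M ≤ N + (j r + (n - j) (n - 1))`. Baker: `lam` is independent over `Qa` (`Bk.baker_hom`). -/
theorem dim_formS {n N r s j : ℕ} (F : Fin s → MvPolynomial (Fin N ⊕ Fin n) ℂ) (lam : Fin r → ℂ)
    (hl : ∀ i, IsAlgebraic ℚ (Complex.exp (lam i))) (hli : LinearIndependent ℚ lam)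
    (J : Finset (Fin n × Fin r)) (hJ : j * r + N + (n - j) * (n - 1) < J.card) :
    ∃ P : MvPolynomial (Fin n × Fin r) Qa, P ≠ 0 ∧ P.vars ⊆ J ∧
      ∀ (z : Fin N → Qa) (M : Fin n × Fin r → Qa), BadS lam F j z M → eval M P = 0 := by
  classical
  by_contra hcon
  push Not at hcon
  set I : Type := (Fin N → Qa) × (Fin n × Fin r → Qa) with hI
  set B : Set I := {a | BadS lam F j a.1 a.2} with hB
  set Y : I → J → Qa := fun a s => a.2 s.1 with hY
  have hgen : ∀ P : MvPolynomial J Qa, P ≠ 0 → ∃ a ∈ B, eval (Y a) P ≠ 0 := by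
    intro P hP
    have h1 : rename (Subtype.val : J → Fin n × Fin r) P ≠ 0 := by
      intro h0
      exact hP (rename_injective _ Subtype.val_injective (by rw [h0, map_zero]))
    have h2 : (rename (Subtype.val : J → Fin n × Fin r) P).vars ⊆ J := by
      refine (vars_rename _ _).trans fun x hx => ?_
      obtain ⟨y, -, rfl⟩ := Finset.mem_image.1 hx
      exact y.2
    obtain ⟨z, M, hb, hM⟩ := hcon _ h1 h2
    refine ⟨(z, M), hb, ?_⟩
    rw [eval_rename] at hM
    exact hM
  obtain ⟨U, hU1, hU2⟩ := FC.exists_ultra Y B hgen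
  have hind : AlgebraicIndependent Qa fun s : J => UP.mk U fun a => Y a s := by
    rw [algebraicIndependent_iff]
    intro p hp
    by_contra hne
    have h1 : UP.mk U (fun i => eval (Y i) p) = 0 := by
      rw [← hp]
      exact (FC.up_aeval U Y p).symm
    have h2 := UP.mk_eq_zero.1 h1
    obtain ⟨i, hi1, hi2⟩ := (h2.and (hU2 p hne)).exists
    exact hi2 hi1
  have hex : ∀ s : J, ∃ D : Derivation Qa (UP U Qa) (UP U Qa), ∀ s' : J,
      D (UP.mk U fun a => Y a s') = if s' = s then 1 else 0 := fun s =>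
    exists_derivation_of_algebraicIndependent hind _
  choose D hD using hex
  have h1 : J.card ≤ rk (⊤ : Submodule (UP U Qa) (Derivation Qa (UP U Qa) (UP U Qa)))
      (cls U fun a : I => a.2) := le_rk_of_delta J _ D fun s t => hD s t
  have h2 := rk_split (⊤ : Submodule (UP U Qa) (Derivation Qa (UP U Qa) (UP U Qa)))
    (cls U fun a : I => a.2) (cls U fun a : I => a.1)
  have h3 := rk_le_card (⊤ : Submodule (UP U Qa) (Derivation Qa (UP U Qa) (UP U Qa)))
    (cls U fun a : I => a.1)
  have h4 := claimS lam (sbms_li lam hl hli) (fun i => Submodule.subset_span (hl i)) U n j (Fin N)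
    (Fin n) (Fintype.card_fin n) F (fun a => a.1) (fun a => a.2)
    (⊤ ⊓ LinearMap.ker (evl (cls U fun a : I => a.1)))
    (fun D hD t => by
      have h5 := LinearMap.mem_ker.1 (Submodule.mem_inf.1 hD).2
      exact congrFun h5 t)
    (hU1.mono fun a ha => ha.1) (hU1.mono fun a ha => ha.2)
  rw [Fintype.card_fin] at h3
  have h5 := (h1.trans h2).trans (add_le_add h4 h3)
  omega

/-- Theorem S, counting form. PROOF. `dim_formS` and `grid_count` (`Fin n × Fin r ≃ Fin (n * r)`). -/
theorem count_formS {n N r s j : ℕ} (F : Fin s → MvPolynomial (Fin N ⊕ Fin n) ℂ) (lam : Fin r → ℂ)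
    (hl : ∀ i, IsAlgebraic ℚ (Complex.exp (lam i))) (hli : LinearIndependent ℚ lam) :
    ∃ K : ℕ, ∀ S : Finset Qa, S.Nonempty →
      {M : Fin n × Fin r → Qa | (∀ p, M p ∈ S) ∧ ∃ z : Fin N → Qa, BadS lam F j z M}.ncard ≤
        K * S.card ^ (j * r + N + (n - j) * (n - 1)) := by
  classical
  set e : Fin n × Fin r ≃ Fin (n * r) := finProdFinEquiv with he
  set B : Set (Fin (n * r) → Qa) := {x | ∃ z : Fin N → Qa, BadS lam F j z (x ∘ e)} with hB
  obtain ⟨K, hK⟩ := grid_count (j * r + N + (n - j) * (n - 1)) B (by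
    intro J hJ
    obtain ⟨P, hP, hv, h⟩ := dim_formS (j := j) F lam hl hli (J.map e.symm.toEmbedding)
      (by rw [Finset.card_map]; exact hJ)
    refine ⟨rename e P, ?_, ?_, ?_⟩
    · intro h0
      exact hP (rename_injective _ e.injective (by rw [h0, map_zero]))
    · refine (vars_rename _ _).trans fun x hx => ?_
      obtain ⟨y, hy, rfl⟩ := Finset.mem_image.1 hx
      obtain ⟨w, hw, hwy⟩ := Finset.mem_map.1 (hv hy)
      rw [← hwy]
      simpa using hw
    · rintro x ⟨z, hz⟩
      rw [eval_rename]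
      exact h z _ hz)
  refine ⟨K, fun S hS => le_trans (le_of_eq ?_) (hK S hS)⟩
  refine Set.ncard_congr (fun M _ => M ∘ e.symm) ?_ ?_ ?_
  · rintro M ⟨h1, z, hz⟩
    refine ⟨⟨z, ?_⟩, fun i => h1 _⟩
    have h2 : (M ∘ e.symm) ∘ e = M := by
      funext p
      simp
    rw [h2]
    exact hz
  · intro M M' _ _ h
    funext p
    have := congrFun h (e p)
    simpa using this
  · rintro x ⟨⟨z, hz⟩, h1⟩
    refine ⟨x ∘ e, ⟨fun p => h1 _, z, hz⟩, ?_⟩
    funext i
    simp

end MP60829e.SB
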