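import Pool.Agent.Lib.MP_60829e_nt.SB.Defs

/-! # Spaces of derivations evaluated at finite families -/

open Module

namespace MP60829e.SB

variable {k K σ τ : Type} [Field k] [Field K] [Algebra k K]

theorem rk_le_card [Fintype σ] (Δ : Submodule K (Derivation k K K)) (x : σ → K) :
    rk Δ x ≤ Fintype.card σ := by
  unfold rk
  calc finrank K (Δ.map (evl x)) ≤ finrank K (σ → K) := Submodule.finrank_le _
    _ = Fintype.card σ := Module.finrank_pi K

/-- PROOF. Let `S` be the image of `Δ` in `(σ → K) × (τ → K)`. Its projection to `τ → K` is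
`Δ.map (evl y)` with the kernel `(Δ ⊓ ker (evl y)).map (evl x)`, and `Δ.map (evl x)` is a quotient
of `S`. -/
theorem rk_split [Fintype σ] [Fintype τ] (Δ : Submodule K (Derivation k K K)) (x : σ → K)
    (y : τ → K) : rk Δ x ≤ rk (Δ ⊓ LinearMap.ker (evl y)) x + rk Δ y := by
  classical
  set S : Submodule K ((σ → K) × (τ → K)) := Δ.map ((evl x).prod (evl y)) with hS
  -- the first projection of S
  have h1 : S.map (LinearMap.fst K (σ → K) (τ → K)) = Δ.map (evl x) := by
    rw [hS, ← Submodule.map_comp]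
    rfl
  have h2 : S.map (LinearMap.snd K (σ → K) (τ → K)) = Δ.map (evl y) := by
    rw [hS, ← Submodule.map_comp]
    rfl
  have h3 : rk Δ x ≤ finrank K S := by
    unfold rk
    rw [← h1]
    exact Submodule.finrank_map_le _ _
  -- rank nullity
  set f : S →ₗ[K] (τ → K) := (LinearMap.snd K (σ → K) (τ → K)).domRestrict S with hf
  have h4 : finrank K (LinearMap.range f) + finrank K (LinearMap.ker f) = finrank K S :=
    LinearMap.finrank_range_add_finrank_ker f
  have h5 : LinearMap.range f = Δ.map (evl y) := by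
    rw [← h2]
    ext z
    constructor
    · rintro ⟨s, rfl⟩
      exact ⟨s.1, s.2, rfl⟩
    · rintro ⟨s, hs, rfl⟩
      exact ⟨⟨s, hs⟩, rfl⟩
  have h6 : finrank K (LinearMap.ker f) ≤ finrank K ((Δ ⊓ LinearMap.ker (evl y)).map (evl x)) := by
    let g : LinearMap.ker f →ₗ[K] (σ → K) :=
      (LinearMap.fst K (σ → K) (τ → K)).comp (S.subtype.comp (LinearMap.ker f).subtype)
    have hg : ∀ z, g z ∈ (Δ ⊓ LinearMap.ker (evl y)).map (evl x) := by
      rintro ⟨⟨s, hs⟩, hz⟩
      obtain ⟨D, hD, rfl⟩ := hs
      refine ⟨D, ⟨hD, ?_⟩, rfl⟩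
      exact hz
    let g' : LinearMap.ker f →ₗ[K] ((Δ ⊓ LinearMap.ker (evl y)).map (evl x)) :=
      g.codRestrict _ hg
    have hinj : Function.Injective g' := by
      rintro ⟨⟨s, hs⟩, hz⟩ ⟨⟨t, ht⟩, hw⟩ h
      have e1 : s.1 = t.1 := congrArg Subtype.val h
      have e2 : s.2 = 0 := hz
      have e3 : t.2 = 0 := hw
      have e : s = t := Prod.ext e1 (e2.trans e3.symm)
      subst e
      rfl
    exact LinearMap.finrank_le_finrank_of_injective hinj
  have h7 : finrank K (LinearMap.range f) = rk Δ y := by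
    unfold rk
    rw [h5]
  unfold rk at *
  omega

/-- PROOF. From `rk_split` (the first term is zero), or directly. -/
theorem rk_le_of_forall [Fintype σ] [Fintype τ] (Δ : Submodule K (Derivation k K K)) (x : σ → K)
    (y : τ → K) (h : ∀ D ∈ Δ, (∀ t, D (y t) = 0) → ∀ s, D (x s) = 0) : rk Δ x ≤ rk Δ y := by
  have h1 := rk_split Δ x y
  have h2 : (Δ ⊓ LinearMap.ker (evl y)).map (evl x) = ⊥ := by
    rw [Submodule.eq_bot_iff]
    rintro z ⟨D, ⟨hD, hD'⟩, rfl⟩
    have h3 : evl y D = 0 := hD'
    funext s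
    exact h D hD (fun t => congrFun h3 t) s
  have h4 : rk (Δ ⊓ LinearMap.ker (evl y)) x = 0 := by
    unfold rk
    rw [h2]
    exact finrank_bot K (σ → K)
  omega

/-- PROOF. A basis of `Δ.map (evl x)`, lifted to `Δ`. -/
theorem exists_of_le_rk [Fintype σ] (Δ : Submodule K (Derivation k K K)) (x : σ → K) {N : ℕ}
    (h : N ≤ rk Δ x) : ∃ D : Fin N → Derivation k K K, (∀ s, D s ∈ Δ) ∧
      LinearIndependent K fun s => evl x (D s) := by
  unfold rk at h
  let b := finBasis K (Δ.map (evl x))
  have hb : ∀ i, ∃ D : Derivation k K K, D ∈ Δ ∧ evl x D = (b i : σ → K) := fun i => by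
    obtain ⟨D, hD, hD'⟩ := (b i).2
    exact ⟨D, hD, hD'⟩
  choose D hD hD' using hb
  refine ⟨fun s => D (Fin.castLE h s), fun s => hD _, ?_⟩
  have h1 : LinearIndependent K fun i => (b i : σ → K) :=
    b.linearIndependent.map' (Δ.map (evl x)).subtype (Submodule.ker_subtype _)
  have h2 := h1.comp (Fin.castLE h) (Fin.castLE_injective h)
  have h3 : (fun s => evl x (D (Fin.castLE h s))) =
      (fun i => (b i : σ → K)) ∘ (Fin.castLE h) := by
    funext s
    exact hD' _
  rw [h3]
  exact h2

/-- PROOF. The vectors `evl x (D s)` restricted to `J` are the unit vectors. -/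
theorem le_rk_of_delta [Fintype σ] [DecidableEq σ] (J : Finset σ) (x : σ → K)
    (D : J → Derivation k K K) (h : ∀ s t : J, D s (x t) = if t = s then 1 else 0) :
    J.card ≤ rk (⊤ : Submodule K (Derivation k K K)) x := by
  have hli : LinearIndependent K fun s : J =>
      (⟨evl x (D s), Submodule.mem_map_of_mem trivial⟩ :
        (⊤ : Submodule K (Derivation k K K)).map (evl x)) := by
    rw [Fintype.linearIndependent_iff]
    intro g hg s
    have h1 := congrArg (fun z : (⊤ : Submodule K (Derivation k K K)).map (evl x) =>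
      (z : σ → K) s) hg
    simp only [AddSubmonoidClass.coe_finsetSum, Submodule.coe_smul, Finset.sum_apply,
      Pi.smul_apply, smul_eq_mul, ZeroMemClass.coe_zero, Pi.zero_apply] at h1
    have h2 : ∀ t : J, g t * evl x (D t) s = if t = s then g t else 0 := by
      intro t
      rw [evl_apply, h t s]
      by_cases hts : t = s
      · rw [if_pos hts, if_pos hts.symm, mul_one]
      · rw [if_neg hts, if_neg (fun e => hts e.symm), mul_zero]
    rw [Finset.sum_congr rfl (fun t _ => h2 t), Finset.sum_ite_eq' Finset.univ s g,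
      if_pos (Finset.mem_univ s)] at h1
    exact h1
  have h5 := hli.fintype_card_le_finrank
  rw [Fintype.card_coe] at h5
  exact h5

end MP60829e.SB
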